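import Mathlib
import Pool.Agent.R141.MT.Index
import Pool.Agent.R141.MT.Cap
import Pool.Agent.R141.MT.UCT

set_option autoImplicit false

/-!
# Every `d`-Matousek simplicial complex is `d`-Leray
-/

namespace Pool.Agent.Results.MP_415069_co.MatousekLeray

open Finset Pool.Agent.Helper133.BU Pool.Agent.R141.MT

variable {n : ℕ}

/-- Simplicial complexes with vertex set `Fin n`, given by the set of the faces. -/
def IsComplex (K : Finset (Finset (Fin n))) : Prop :=
  (∀ σ ∈ K, ∀ τ ⊆ σ, τ ∈ K) ∧ ∀ v : Fin n, {v} ∈ K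

/-- The set `M(K)` of facets. -/
def facets (K : Finset (Finset (Fin n))) : Finset (Finset (Fin n)) :=
  K.filter (fun σ => ∀ τ ∈ K, σ ⊆ τ → τ = σ)

/-- The intersection of the facets in the support of `x`. -/
noncomputable def core {K : Finset (Finset (Fin n))} (x : facets K → ℝ) : Finset (Fin n) :=
  open Classical in univ.filter (fun v => ∀ α, x α ≠ 0 → v ∈ α.1)

/-- The geometric realization `|K'|` of the dual complex. -/
def dualSpace (K : Finset (Finset (Fin n))) : Set (facets K → ℝ) :=
  {x | (∀ α, 0 ≤ x α) ∧ ∑ α, x α = 1 ∧ (core x).Nonempty}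

/-- The configuration space. -/
def config (K : Finset (Finset (Fin n))) : Set ((facets K → ℝ) × (facets K → ℝ)) :=
  {p | p.1 ∈ dualSpace K ∧ p.2 ∈ dualSpace K ∧ core p.1 ∪ core p.2 ∉ K}

/-- `d`-Matousek: there is a continuous odd map from the configuration space to the unit sphere
of `ℝ^d`. -/
def IsMatousek (K : Finset (Finset (Fin n))) (d : ℕ) : Prop :=
  ∃ f : (facets K → ℝ) × (facets K → ℝ) → EuclideanSpace ℝ (Fin d), ContinuousOn f (config K) ∧
    ∀ p ∈ config K, ‖f p‖ = 1 ∧ f p.swap = - f p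

/-- The induced subcomplex `K[W]`. -/
def inducedCx (K : Finset (Finset (Fin n))) (W : Finset (Fin n)) : Finset (Finset (Fin n)) :=
  K.filter (fun σ => σ ⊆ W)

/-- The reduced simplicial homology of `L` with rational coefficients vanishes in degree `m`. -/
def HomologyVanishes (L : Finset (Finset (Fin n))) (m : ℕ) : Prop := AcycR ℚ L (m + 1)

/-- `d`-Leray. -/
def IsLeray (K : Finset (Finset (Fin n))) (d : ℕ) : Prop :=
  ∀ (W : Finset (Fin n)) (m : ℕ), d ≤ m → HomologyVanishes (inducedCx K W) m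

/-! ### Proof -/

theorem bdL_map {V W : Type*} (f : V → W) (l : List V) :
    bdL (l.map f) = Finsupp.lmapDomain (ZMod 2) (ZMod 2) (List.map f) (bdL l) := by
  have hc : ∀ (v : V) (c : Chain V), Finsupp.lmapDomain (ZMod 2) (ZMod 2) (List.map f) (cone v c)
      = cone (f v) (Finsupp.lmapDomain (ZMod 2) (ZMod 2) (List.map f) c) := by
    intro v c
    induction c using Finsupp.induction_linear with
    | zero => simp
    | add f g hf hg => simp only [map_add, hf, hg]
    | single l b => simp [cone_single]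
  induction l with
  | nil => simp [bdL]
  | cons v l ih =>
    rw [List.map_cons, bdL, bdL, map_add, hc, ih]
    simp

section Top

variable (K : Finset (Finset (Fin n)))

/-- the barycenter of the facets containing `σ` -/
noncomputable def bb (σ : Finset (Fin n)) (α : facets K) : ℝ :=
  if σ ⊆ α.1 then ((univ.filter (fun β : facets K => σ ⊆ β.1)).card : ℝ)⁻¹ else 0

theorem bb_nonneg (σ : Finset (Fin n)) (α : facets K) : 0 ≤ bb K σ α := by
  unfold bb
  split_ifs
  · positivity
  · exact le_rfl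

theorem bb_ne {σ : Finset (Fin n)} {α : facets K} (h : bb K σ α ≠ 0) : σ ⊆ α.1 := by
  by_contra h'
  exact h (if_neg h')

theorem bb_sum {σ : Finset (Fin n)} (hσ : σ ∈ K) : ∑ α, bb K σ α = 1 := by
  unfold bb
  rw [← sum_filter, sum_const, nsmul_eq_mul]
  apply mul_inv_cancel₀
  obtain ⟨τ, hτ, hmax⟩ := exists_le_maximal K hσ
  have hτK : τ ∈ facets K := by
    rw [facets, mem_filter]
    exact ⟨hmax.1, fun ρ hρ hle => le_antisymm (hmax.2 hρ hle) hle⟩
  have : (⟨τ, hτK⟩ : facets K) ∈ univ.filter (fun β : facets K => σ ⊆ β.1) := by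
    rw [mem_filter]
    exact ⟨mem_univ _, hτ⟩
  have h2 := card_pos.2 ⟨_, this⟩
  positivity

/-- the map to the pairs of points -/
noncomputable def phi (u : XX n → ℝ) : (facets K → ℝ) × (facets K → ℝ) :=
  (fun α => ∑ x, max (u x) 0 * bb K x.1 α, fun α => ∑ x, max (u x) 0 * bb K x.2 α)

theorem phi_continuous : Continuous (phi K) := by
  unfold phi
  fun_prop

end Top

/-- the signed vertices -/
noncomputable def pt (x : XX n) : XX n → ℝ := fun y => (if y = x then 1 else 0) - (if y.swap = x then 1 else 0)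

theorem pt_swap (x : XX n) : pt x.swap = - pt x := by
  funext y
  simp only [pt, Pi.neg_apply]
  have h1 : (y = x.swap) ↔ (y.swap = x) := by
    constructor
    · rintro rfl; simp
    · rintro rfl; simp
  have h2 : (y.swap = x.swap) ↔ (y = x) := by
    constructor
    · intro h
      have := congrArg Prod.swap h
      simpa using this
    · rintro rfl; rfl
  simp only [h1, h2]
  ring

/-- the cells -/
def cell (A : Finset (XX n)) : Set (XX n → ℝ) :=
  {u | ∃ t : XX n → ℝ, (∀ x, 0 ≤ t x) ∧ ∑ x, t x = 1 ∧ (∀ x, t x ≠ 0 → x ∈ A) ∧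
    ∀ x, u x = t x - t x.swap}

/-- chains of the poset -/
def GoodA (L : Finset (Finset (Fin n))) (A : Finset (XX n)) : Prop :=
  (∀ x ∈ A, x ∈ Hat L) ∧ ∀ x ∈ A, ∀ y ∈ A, x ≤ y ∨ y ≤ x

theorem cell_convex (A : Finset (XX n)) : Convex ℝ (cell A) := by
  rintro u ⟨t, h1, h2, h3, h4⟩ u' ⟨t', h1', h2', h3', h4'⟩ a b ha hb hab
  refine ⟨fun x => a * t x + b * t' x, ?_, ?_, ?_, ?_⟩
  · intro x
    have := h1 x
    have := h1' x
    positivity
  · rw [sum_add_distrib, ← mul_sum, ← mul_sum, h2, h2']
    linarith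
  · intro x hx
    by_contra hA
    apply hx
    have e1 : t x = 0 := by
      by_contra h
      exact hA (h3 x h)
    have e2 : t' x = 0 := by
      by_contra h
      exact hA (h3' x h)
    show a * t x + b * t' x = 0
    rw [e1, e2]
    ring
  · intro x
    simp only [Pi.add_apply, Pi.smul_apply, smul_eq_mul, h4, h4']
    ring

theorem cell_compact (A : Finset (XX n)) : IsCompact (cell A) := by
  have h1 : IsCompact (stdSimplex ℝ (XX n) ∩ {t | ∀ x, x ∉ A → t x = 0}) := by
    apply (isCompact_stdSimplex ℝ (XX n)).inter_right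
    have : {t : XX n → ℝ | ∀ x, x ∉ A → t x = 0} = ⋂ x, ⋂ (_ : x ∉ A), {t | t x = 0} := by
      ext t
      simp
    rw [this]
    exact isClosed_iInter fun x => isClosed_iInter fun _ =>
      isClosed_eq (continuous_apply x) continuous_const
  have h2 : cell A = (fun t : XX n → ℝ => fun x => t x - t x.swap) ''
      (stdSimplex ℝ (XX n) ∩ {t | ∀ x, x ∉ A → t x = 0}) := by
    ext u
    constructor
    · rintro ⟨t, h1, h2, h3, h4⟩
      refine ⟨t, ⟨⟨h1, h2⟩, fun x hx => ?_⟩, ?_⟩
      · by_contra h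
        exact hx (h3 x h)
      · funext x
        exact (h4 x).symm
    · rintro ⟨t, ⟨⟨h1, h2⟩, h3⟩, rfl⟩
      refine ⟨t, h1, h2, fun x hx => ?_, fun x => rfl⟩
      by_contra h
      exact hx (h3 x h)
  rw [h2]
  apply h1.image
  fun_prop

/-- the space -/
def space (L : Finset (Finset (Fin n))) : Set (XX n → ℝ) := ⋃ A ∈ {A | GoodA L A}, cell A

theorem space_compact (L : Finset (Finset (Fin n))) : IsCompact (space L) :=
  (Set.toFinite {A | GoodA L A}).isCompact_biUnion (fun A _ => cell_compact A)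

theorem hat_swap {L : Finset (Finset (Fin n))} {x : XX n} (hx : x ∈ Hat L) : x.swap ∈ Hat L := by
  obtain ⟨h1, h2, h3, h4, h5⟩ := hx
  exact ⟨h2, h1, h4, h3, by rw [union_comm]; exact h5⟩

theorem space_neg {L : Finset (Finset (Fin n))} {u : XX n → ℝ} (hu : u ∈ space L) :
    -u ∈ space L := by
  simp only [space, Set.mem_iUnion] at hu ⊢
  obtain ⟨A, hA, t, h1, h2, h3, h4⟩ := hu
  refine ⟨A.image Prod.swap, ⟨?_, ?_⟩, fun x => t x.swap, ?_, ?_, ?_, ?_⟩
  · intro x hx
    rw [mem_image] at hx
    obtain ⟨y, hy, rfl⟩ := hx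
    exact hat_swap (hA.1 y hy)
  · intro x hx y hy
    rw [mem_image] at hx hy
    obtain ⟨x, hx, rfl⟩ := hx
    obtain ⟨y, hy, rfl⟩ := hy
    rcases hA.2 x hx y hy with h | h
    · exact Or.inl ⟨h.2, h.1⟩
    · exact Or.inr ⟨h.2, h.1⟩
  · intro x
    exact h1 _
  · rw [← h2]
    exact Equiv.sum_comp (Equiv.prodComm _ _) t
  · intro x hx
    rw [mem_image]
    exact ⟨x.swap, h3 _ hx, Prod.swap_swap x⟩
  · intro x
    show - u x = t x.swap - t x.swap.swap
    rw [h4, Prod.swap_swap]
    ring

theorem space_norm {L : Finset (Finset (Fin n))} {u : XX n → ℝ} (hu : u ∈ space L) : ‖u‖ ≤ 1 := by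
  simp only [space, Set.mem_iUnion] at hu
  obtain ⟨A, hA, t, h1, h2, h3, h4⟩ := hu
  rw [pi_norm_le_iff_of_nonneg zero_le_one]
  intro x
  have hle : ∀ y, t y ≤ 1 := by
    intro y
    rw [← h2]
    exact single_le_sum (f := t) (fun z _ => h1 z) (mem_univ y)
  rw [Real.norm_eq_abs, h4, abs_le]
  constructor
  · linarith [h1 x, hle x.swap]
  · linarith [h1 x.swap, hle x]

/-- recovering the barycentric coordinates -/
theorem max_eq {L : Finset (Finset (Fin n))} {A : Finset (XX n)}
    (hA : GoodA L A) {u t : XX n → ℝ} (h1 : ∀ x, 0 ≤ t x) (h3 : ∀ x, t x ≠ 0 → x ∈ A)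
    (h4 : ∀ x, u x = t x - t x.swap) (x : XX n) : max (u x) 0 = t x := by
  by_cases hx : t x = 0
  · rw [h4, hx, zero_sub]
    have := h1 x.swap
    exact max_eq_right (by linarith)
  · have h5 : t x.swap = 0 := by
      by_contra h
      have hxA := h3 x hx
      have hsA := h3 _ h
      have hxH := hA.1 x hxA
      have heq : x.1 = x.2 := by
        rcases hA.2 x hxA _ hsA with h' | h'
        · exact le_antisymm h'.1 h'.2
        · exact le_antisymm h'.2 h'.1
      apply hxH.2.2.2.2
      rw [← heq, union_self]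
      exact hxH.1
    rw [h4, h5, sub_zero]
    exact max_eq_left (h1 x)

theorem phi_neg {K L : Finset (Finset (Fin n))} {u : XX n → ℝ} (hu : u ∈ space L) :
    phi K (-u) = (phi K u).swap := by
  have hanti : ∀ x, (-u) x = u x.swap := by
    simp only [space, Set.mem_iUnion] at hu
    obtain ⟨A, hA, t, h1, h2, h3, h4⟩ := hu
    intro x
    rw [Pi.neg_apply, h4, h4, Prod.swap_swap]
    ring
  unfold phi
  simp_rw [hanti]
  rw [Prod.swap_prod_mk]
  congr 1
  · funext α
    exact Equiv.sum_comp (Equiv.prodComm _ _) (fun x => max (u x) 0 * bb K x.2 α)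
  · funext α
    exact Equiv.sum_comp (Equiv.prodComm _ _) (fun x => max (u x) 0 * bb K x.1 α)

theorem phi_mem {K : Finset (Finset (Fin n))} (hK : IsComplex K) (W : Finset (Fin n))
    {u : XX n → ℝ} (hu : u ∈ space (inducedCx K W)) : phi K u ∈ config K := by
  simp only [space, Set.mem_iUnion] at hu
  obtain ⟨A, hA, t, h1, h2, h3, h4⟩ := hu
  have hmax := max_eq hA h1 h3 h4
  have hsub : ∀ σ, σ ∈ inducedCx K W → σ ∈ K := fun σ h => (mem_filter.1 h).1
  -- the smallest element of the support
  obtain ⟨x0, hx0, hmin⟩ : ∃ x0, t x0 ≠ 0 ∧ ∀ x, t x ≠ 0 → x0 ≤ x := by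
    have hne : (univ.filter (fun x => t x ≠ 0)).Nonempty := by
      by_contra hcon
      rw [not_nonempty_iff_eq_empty, filter_eq_empty_iff] at hcon
      have : ∑ x, t x = 0 := sum_eq_zero (fun x hx => by
        by_contra h
        exact hcon hx h)
      rw [h2] at this
      exact one_ne_zero this
    obtain ⟨x0, hx0⟩ := exists_minimal hne
    have h5 : x0 ∈ univ.filter (fun x => t x ≠ 0) := hx0.1
    rw [mem_filter] at h5
    refine ⟨x0, h5.2, fun x hx => ?_⟩
    rcases hA.2 x0 (h3 _ h5.2) x (h3 _ hx) with h | h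
    · exact h
    · exact hx0.2 (mem_filter.2 ⟨mem_univ _, hx⟩) h
  have hx0H := hA.1 x0 (h3 _ hx0)
  have hval1 : ∀ α, (phi K u).1 α = ∑ x, t x * bb K x.1 α := by
    intro α
    show ∑ x, max (u x) 0 * bb K x.1 α = _
    simp_rw [hmax]
  have hval2 : ∀ α, (phi K u).2 α = ∑ x, t x * bb K x.2 α := by
    intro α
    show ∑ x, max (u x) 0 * bb K x.2 α = _
    simp_rw [hmax]
  have hc1 : x0.1 ⊆ core (phi K u).1 := by
    intro v hv
    rw [core, mem_filter]
    refine ⟨mem_univ _, fun α hα => ?_⟩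
    rw [hval1] at hα
    obtain ⟨x, _, hx⟩ := exists_ne_zero_of_sum_ne_zero hα
    exact bb_ne K (right_ne_zero_of_mul hx) ((hmin x (left_ne_zero_of_mul hx)).1 hv)
  have hc2 : x0.2 ⊆ core (phi K u).2 := by
    intro v hv
    rw [core, mem_filter]
    refine ⟨mem_univ _, fun α hα => ?_⟩
    rw [hval2] at hα
    obtain ⟨x, _, hx⟩ := exists_ne_zero_of_sum_ne_zero hα
    exact bb_ne K (right_ne_zero_of_mul hx) ((hmin x (left_ne_zero_of_mul hx)).2 hv)
  refine ⟨⟨?_, ?_, hx0H.2.2.1.mono hc1⟩, ⟨?_, ?_, hx0H.2.2.2.1.mono hc2⟩, ?_⟩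
  · intro α
    rw [hval1]
    exact sum_nonneg (fun x _ => mul_nonneg (h1 x) (bb_nonneg K _ _))
  · simp_rw [hval1]
    rw [sum_comm, ← h2]
    apply sum_congr rfl
    intro x _
    rw [← mul_sum]
    by_cases hx : t x = 0
    · rw [hx, zero_mul]
    · rw [bb_sum K (hsub _ (hA.1 x (h3 x hx)).1), mul_one]
  · intro α
    rw [hval2]
    exact sum_nonneg (fun x _ => mul_nonneg (h1 x) (bb_nonneg K _ _))
  · simp_rw [hval2]
    rw [sum_comm, ← h2]
    apply sum_congr rfl
    intro x _
    rw [← mul_sum]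
    by_cases hx : t x = 0
    · rw [hx, zero_mul]
    · rw [bb_sum K (hsub _ (hA.1 x (h3 x hx)).2.1), mul_one]
  · intro hcon
    apply hx0H.2.2.2.2
    rw [inducedCx, mem_filter]
    refine ⟨hK.1 _ hcon _ (union_subset_union hc1 hc2), ?_⟩
    exact union_subset (mem_filter.1 hx0H.1).2 (mem_filter.1 hx0H.2.1).2

theorem pt_cell {A : Finset (XX n)} {x : XX n} (hx : x ∈ A) : pt x ∈ cell A := by
  refine ⟨fun y => if y = x then 1 else 0, ?_, ?_, ?_, ?_⟩
  · intro y
    show (0 : ℝ) ≤ if y = x then 1 else 0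
    split_ifs <;> norm_num
  · rw [sum_ite_eq' univ x, if_pos (mem_univ x)]
  · intro y hy
    by_cases h : y = x
    · rw [h]; exact hx
    · exact absurd (if_neg h) hy
  · intro y
    rfl

theorem pairwise_total (l : List (XX n)) (h : l.Pairwise (fun x y => x ≤ y)) :
    ∀ x ∈ l, ∀ y ∈ l, x ≤ y ∨ y ≤ x := by
  induction l with
  | nil =>
    intro x hx
    exact absurd hx List.not_mem_nil
  | cons a l ih =>
    rw [List.pairwise_cons] at h
    intro x hx y hy
    rcases List.mem_cons.1 hx with hx1 | hx1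
    · rcases List.mem_cons.1 hy with hy1 | hy1
      · rw [hx1, hy1]
        exact Or.inl le_rfl
      · rw [hx1]
        exact Or.inl (h.1 y hy1)
    · rcases List.mem_cons.1 hy with hy1 | hy1
      · rw [hy1]
        exact Or.inr (h.1 x hx1)
      · exact ih h.2 x hx1 y hy1

theorem smith_exists {K : Finset (Finset (Fin n))} (hK : IsComplex K) (W : Finset (Fin n)) {d : ℕ}
    (hd : 1 ≤ d) (hM : IsMatousek K d) :
    ∃ R : ℕ → Fun n, Smith (inducedCx K W) d R := by
  obtain ⟨f, hf, hf'⟩ := hM
  set L := inducedCx K W with hL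
  obtain ⟨E, hE0, hE1, hE2⟩ := index_exists hd {C | ∃ A, GoodA L A ∧ C = cell A}
    (by rintro C ⟨A, -, rfl⟩; exact cell_convex A) (space L) (space_compact L)
    (fun u hu => space_neg hu)
    (by
      rintro C ⟨A, hA, rfl⟩ u hu
      simp only [space, Set.mem_iUnion]
      exact ⟨A, hA, hu⟩)
    (fun u hu => space_norm hu) (fun u i => f (phi K u) i)
    (by
      have h1 : ContinuousOn (fun u => f (phi K u)) (space L) :=
        hf.comp (phi_continuous K).continuousOn (fun u hu => phi_mem hK W hu)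
      rw [continuousOn_pi]
      intro i
      exact (EuclideanSpace.proj (𝕜 := ℝ) i).continuous.comp_continuousOn h1)
    (by
      intro u hu
      funext i
      rw [phi_neg hu, (hf' _ (phi_mem hK W hu)).2]
      rfl)
    (by
      intro u hu h0
      have h1 := (hf' _ (phi_mem hK W hu)).1
      have h2 : f (phi K u) = 0 := by
        ext i
        exact congrFun h0 i
      rw [h2, norm_zero] at h1
      exact zero_ne_one h1)
  have hcells : ∀ l : List (XX n), ChainIn L l →
      ∃ C ∈ {C | ∃ A, GoodA L A ∧ C = cell A}, ∀ u ∈ l.map pt, u ∈ C := by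
    intro l hl
    refine ⟨cell l.toFinset, ⟨l.toFinset, ⟨?_, ?_⟩, rfl⟩, ?_⟩
    · intro x hx
      exact hl.1 x (by simpa using hx)
    · intro x hx y hy
      rw [List.mem_toFinset] at hx hy
      exact pairwise_total l hl.2 x hx y hy
    · intro u hu
      rw [List.mem_map] at hu
      obtain ⟨x, hx, rfl⟩ := hu
      exact pt_cell (by simpa using hx)
  have hneg : ∀ l : List (XX n), nu (Finsupp.single (l.map pt) (1 : ZMod 2)) =
      Finsupp.single ((l.map Prod.swap).map pt) 1 := by
    intro l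
    rw [nu_single, List.map_map, List.map_map]
    congr 1
    apply List.map_congr_left
    intro x _
    exact (pt_swap x).symm
  have hsw : ∀ l : List (XX n), ChainIn L l → ChainIn L (l.map Prod.swap) := by
    rintro l ⟨h1, h2⟩
    refine ⟨?_, ?_⟩
    · intro x hx
      rw [List.mem_map] at hx
      obtain ⟨y, hy, rfl⟩ := hx
      exact hat_swap (h1 y hy)
    · rw [List.pairwise_map]
      exact h2.imp (fun h => ⟨h.2, h.1⟩)
  have hmap : ∀ (q : ℕ) (l : List (XX n)),
      ((E q).comp (Finsupp.lmapDomain (ZMod 2) (ZMod 2) (List.map pt))) (Finsupp.single l 1) =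
        E q (Finsupp.single (l.map pt) 1) := by
    intro q l
    rw [LinearMap.comp_apply, Finsupp.lmapDomain_apply, Finsupp.mapDomain_single]
  refine ⟨fun i => if i < d then (E (i + 1)).comp
    (Finsupp.lmapDomain (ZMod 2) (ZMod 2) (List.map pt)) else 0, ?_, ?_, ?_⟩
  · intro i hi
    exact if_neg (by omega)
  · intro x hx
    rw [if_pos (by omega), hmap, hmap]
    have hch : ChainIn L [x] := ⟨by simpa using hx, by simp⟩
    have h1 := hE1 ([x].map pt) 0 (by simp) (hcells [x] hch)
    rw [hneg, map_add] at h1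
    simp only [List.map_cons, List.map_nil] at h1 ⊢
    rw [h1]
    have h2 : bdL [pt x] = Finsupp.single ([] : List (XX n → ℝ)) 1 := by simp [bdL]
    rw [h2]
    exact hE0
  · intro i l hl hch
    by_cases hi : i < d
    · rw [if_pos hi]
      have h1 := hE1 (l.map pt) (i + 1) (by rw [List.length_map, hl]) (hcells l hch)
      rw [hneg, map_add] at h1
      have h2 : ((E (i + 1)).comp (Finsupp.lmapDomain (ZMod 2) (ZMod 2) (List.map pt))) (bdL l) =
          E (i + 1) (bdL (l.map pt)) := by
        rw [LinearMap.comp_apply, bdL_map]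
      rw [h2, ← h1]
      by_cases hi1 : i + 1 < d
      · rw [if_pos hi1, hmap, hmap]
      · have hid : i + 1 = d := by omega
        rw [if_neg hi1]
        have h3 := hE2 (l.map pt) (by rw [List.length_map, hl]; omega) (hcells l hch)
        have h4 := hE2 ((l.map Prod.swap).map pt) (by
          rw [List.length_map, List.length_map, hl]; omega) (hcells _ (hsw l hch))
        rw [hid, h3, h4]
        simp
    · rw [if_neg hi, if_neg (by omega)]
      simp

/-- **Every `d`-Matousek complex is `d`-Leray**, for every `d ≥ 1`. -/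
theorem result (n : ℕ) (K : Finset (Finset (Fin n))) (hK : IsComplex K) (d : ℕ) (hd : 1 ≤ d)
    (hM : IsMatousek K d) : IsLeray K d := by
  intro W m hm
  have hL : Down (inducedCx K W) := by
    intro σ hσ τ hτ
    rw [inducedCx, mem_filter] at hσ ⊢
    exact ⟨hK.1 σ hσ.1 τ hτ, hτ.trans hσ.2⟩
  obtain ⟨R, hR⟩ := smith_exists hK W hd hM
  exact acycQ hL (acyc_large hL hd hR (m + 1) (by omega))

end Pool.Agent.Results.MP_415069_co.MatousekLeray
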